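import Pool.Agent.Helper99.BK.Stmts

/-! Module NT: the lower bound for `G - 1`. -/

set_option autoImplicit false

namespace Pool.Helper99.BK

open NumberField

theorem nt_vieta (x : Fin 3 → ℂ) (a b c e : ℂ) (hne : ∀ i j, i ≠ j → x i ≠ x j)
    (h : ∀ i, a * x i ^ 3 + b * x i ^ 2 + c * x i + e = 0) :
    b = -a * (x 0 + x 1 + x 2) ∧ c = a * (x 0 * x 1 + x 0 * x 2 + x 1 * x 2) ∧
      e = -a * (x 0 * x 1 * x 2) := by
  have h01 : x 0 - x 1 ≠ 0 := sub_ne_zero.2 (hne 0 1 (by decide))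
  have h02 : x 0 - x 2 ≠ 0 := sub_ne_zero.2 (hne 0 2 (by decide))
  have h12 : x 1 - x 2 ≠ 0 := sub_ne_zero.2 (hne 1 2 (by decide))
  have e01 : a * (x 0 ^ 2 + x 0 * x 1 + x 1 ^ 2) + b * (x 0 + x 1) + c = 0 := by
    apply mul_left_cancel₀ h01
    linear_combination h 0 - h 1
  have e02 : a * (x 0 ^ 2 + x 0 * x 2 + x 2 ^ 2) + b * (x 0 + x 2) + c = 0 := by
    apply mul_left_cancel₀ h02
    linear_combination h 0 - h 2
  have eb : a * (x 0 + x 1 + x 2) + b = 0 := by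
    apply mul_left_cancel₀ h12
    linear_combination e01 - e02
  have eb' : b = -a * (x 0 + x 1 + x 2) := by linear_combination eb
  have ec : c = a * (x 0 * x 1 + x 0 * x 2 + x 1 * x 2) := by
    rw [eb'] at e01
    linear_combination e01
  refine ⟨eb', ec, ?_⟩
  have h0 := h 0
  rw [eb', ec] at h0
  linear_combination h0

theorem nt_dsc (a b c e : ℤ) (H : ℝ) (hH : 0 ≤ H) (ha : |(a : ℝ)| ≤ H) (hb : |(b : ℝ)| ≤ H)
    (hc : |(c : ℝ)| ≤ H) (he : |(e : ℝ)| ≤ H) :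
    (((a ^ 2 * dsc a b c e).natAbs : ℕ) : ℝ) ≤ 54 * H ^ 6 := by
  have h1 : (((a ^ 2 * dsc a b c e).natAbs : ℕ) : ℝ) = |((a ^ 2 * dsc a b c e : ℤ) : ℝ)| := by
    rw [Nat.cast_natAbs, Int.cast_abs]
  rw [h1]
  unfold dsc
  push_cast
  rw [abs_mul, abs_pow]
  obtain ⟨A, hA⟩ : ∃ A : ℝ, A = |(a : ℝ)| := ⟨_, rfl⟩
  obtain ⟨B, hB⟩ : ∃ B : ℝ, B = |(b : ℝ)| := ⟨_, rfl⟩
  obtain ⟨C, hC⟩ : ∃ C : ℝ, C = |(c : ℝ)| := ⟨_, rfl⟩
  obtain ⟨E, hE⟩ : ∃ E : ℝ, E = |(e : ℝ)| := ⟨_, rfl⟩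
  have t1 : |(b : ℝ) ^ 2 * c ^ 2 - 4 * a * c ^ 3 - 4 * b ^ 3 * e - 27 * a ^ 2 * e ^ 2 + 18 * a * b * c * e| ≤
      B ^ 2 * C ^ 2 + 4 * A * C ^ 3 + 4 * B ^ 3 * E + 27 * A ^ 2 * E ^ 2 + 18 * A * B * C * E := by
    have s1 : |(b : ℝ) ^ 2 * c ^ 2| = B ^ 2 * C ^ 2 := by rw [abs_mul, abs_pow, abs_pow, hB, hC]
    have s2 : |4 * (a : ℝ) * c ^ 3| = 4 * A * C ^ 3 := by
      rw [abs_mul, abs_mul, abs_pow, hA, hC, abs_of_pos (by norm_num : (0 : ℝ) < 4)]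
    have s3 : |4 * (b : ℝ) ^ 3 * e| = 4 * B ^ 3 * E := by
      rw [abs_mul, abs_mul, abs_pow, hB, hE, abs_of_pos (by norm_num : (0 : ℝ) < 4)]
    have s4 : |27 * (a : ℝ) ^ 2 * e ^ 2| = 27 * A ^ 2 * E ^ 2 := by
      rw [abs_mul, abs_mul, abs_pow, abs_pow, hA, hE, abs_of_pos (by norm_num : (0 : ℝ) < 27)]
    have s5 : |18 * (a : ℝ) * b * c * e| = 18 * A * B * C * E := by
      rw [abs_mul, abs_mul, abs_mul, abs_mul, hA, hB, hC, hE, abs_of_pos (by norm_num : (0 : ℝ) < 18)]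
    have q1 := abs_add_le ((b : ℝ) ^ 2 * c ^ 2 - 4 * a * c ^ 3 - 4 * b ^ 3 * e - 27 * a ^ 2 * e ^ 2)
      (18 * (a : ℝ) * b * c * e)
    have q2 := abs_sub ((b : ℝ) ^ 2 * c ^ 2 - 4 * a * c ^ 3 - 4 * b ^ 3 * e) (27 * (a : ℝ) ^ 2 * (e : ℝ) ^ 2)
    have q3 := abs_sub ((b : ℝ) ^ 2 * c ^ 2 - 4 * a * c ^ 3) (4 * (b : ℝ) ^ 3 * (e : ℝ))
    have q4 := abs_sub ((b : ℝ) ^ 2 * c ^ 2) (4 * (a : ℝ) * (c : ℝ) ^ 3)
    linarith
  have a0 : 0 ≤ A := by rw [hA]; exact abs_nonneg _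
  have b0 : 0 ≤ B := by rw [hB]; exact abs_nonneg _
  have c0 : 0 ≤ C := by rw [hC]; exact abs_nonneg _
  have e0 : 0 ≤ E := by rw [hE]; exact abs_nonneg _
  rw [← hA] at ha ⊢
  rw [← hB] at hb
  rw [← hC] at hc
  rw [← hE] at he
  have t2 : B ^ 2 * C ^ 2 + 4 * A * C ^ 3 + 4 * B ^ 3 * E + 27 * A ^ 2 * E ^ 2 + 18 * A * B * C * E ≤
      H ^ 2 * H ^ 2 + 4 * H * H ^ 3 + 4 * H ^ 3 * H + 27 * H ^ 2 * H ^ 2 + 18 * H * H * H * H := by
    gcongr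
  calc A ^ 2 * |(b : ℝ) ^ 2 * c ^ 2 - 4 * a * c ^ 3 - 4 * b ^ 3 * e - 27 * a ^ 2 * e ^ 2 + 18 * a * b * c * e|
      ≤ H ^ 2 * (H ^ 2 * H ^ 2 + 4 * H * H ^ 3 + 4 * H ^ 3 * H + 27 * H ^ 2 * H ^ 2 + 18 * H * H * H * H) := by
        refine mul_le_mul (pow_le_pow_left₀ a0 ha 2) (t1.trans t2) (abs_nonneg _) (by positivity)
    _ = 54 * H ^ 6 := by ring

theorem nt_logabs {t : ℝ} (h : |t - 1| ≤ 1 / 2) : |Real.log t| ≤ 2 * |t - 1| := by
  have ht : 1 / 2 ≤ t := by rw [abs_le] at h; linarith [h.1]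
  have ht0 : 0 < t := by linarith
  have h1 := Real.log_le_sub_one_of_pos ht0
  have h2 := Real.one_sub_inv_le_log_of_pos ht0
  have h3 : -(2 * |t - 1|) ≤ 1 - t⁻¹ := by
    have h4 : 1 - t⁻¹ = (t - 1) / t := by field_simp
    rw [h4, le_div_iff₀ ht0]
    have h5 := neg_abs_le (t - 1)
    have h6 := abs_nonneg (t - 1)
    nlinarith
  rw [abs_le]
  constructor
  · linarith
  · have := le_abs_self (t - 1)
    have := abs_nonneg (t - 1)
    linarith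

theorem nt_theta {u v : ℂ} {H : ℝ} (hH : 3 ≤ H) (hu : ‖u‖ ≤ 4 * H) (hu' : 1 ≤ 16 * H ^ 4 * ‖u‖)
    (hv : ‖v‖ ≤ 4 * H) (hv' : 1 ≤ 16 * H ^ 4 * ‖v‖) : |Real.log ‖u / v‖| ≤ 9 * Real.log H := by
  have hH0 : 0 < H := by linarith
  have key : ∀ x y : ℂ, ‖x‖ ≤ 4 * H → 1 ≤ 16 * H ^ 4 * ‖x‖ → ‖y‖ ≤ 4 * H → 1 ≤ 16 * H ^ 4 * ‖y‖ →
      Real.log ‖x / y‖ ≤ 9 * Real.log H := by
    intro x y hx hx' hy hy'
    have hx0 : 0 < ‖x‖ := by
      by_contra hc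
      have : ‖x‖ = 0 := le_antisymm (not_lt.1 hc) (norm_nonneg _)
      rw [this, mul_zero] at hx'
      linarith
    have hy0 : 0 < ‖y‖ := by
      by_contra hc
      have : ‖y‖ = 0 := le_antisymm (not_lt.1 hc) (norm_nonneg _)
      rw [this, mul_zero] at hy'
      linarith
    have h1 : ‖x / y‖ ≤ H ^ 9 := by
      rw [norm_div, div_le_iff₀ hy0]
      have h2 : (64 : ℝ) ≤ H ^ 4 := by
        have : (3 : ℝ) ^ 4 ≤ H ^ 4 := pow_le_pow_left₀ (by norm_num) hH 4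
        linarith
      calc ‖x‖ ≤ 4 * H := hx
        _ = 4 * H * 1 := by ring
        _ ≤ 4 * H * (16 * H ^ 4 * ‖y‖) := mul_le_mul_of_nonneg_left hy' (by positivity)
        _ = 64 * (H ^ 5 * ‖y‖) := by ring
        _ ≤ H ^ 4 * (H ^ 5 * ‖y‖) := mul_le_mul_of_nonneg_right h2 (by positivity)
        _ = H ^ 9 * ‖y‖ := by ring
    have h3 : 0 < ‖x / y‖ := by rw [norm_div]; positivity
    have h4 := Real.log_le_log h3 h1
    rw [Real.log_pow] at h4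
    exact_mod_cast h4
  have h1 := key u v hu hu' hv hv'
  have h2 := key v u hv hv' hu hu'
  have h3 : Real.log ‖v / u‖ = - Real.log ‖u / v‖ := by
    rw [← Real.log_inv, ← norm_inv, inv_div]
  rw [h3] at h2
  rw [abs_le]
  constructor <;> linarith

theorem st_NT (hTHE : ST_THE) (hGR : ST_GR) (hGC : ST_GC) (hCM : ST_CM) : ST_NT := by
  obtain ⟨c0, C3, hc0, hC3, GR⟩ := hGR
  obtain ⟨c0', C3', hc0', hC3', GC⟩ := hGC
  obtain ⟨C1, hC1, CM1⟩ := hCM c0 C3 hc0 hC3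
  obtain ⟨C2, hC2, CM2⟩ := hCM c0' C3' hc0' hC3'
  refine ⟨max C1 C2, le_max_of_le_left hC1, ?_⟩
  intro K _ _ hK σ hσ α a b c e ha hdist heq hdsc π hπ H S ν hH haH hbH hcH heH hnorm hdisc hS hSπ hν hνH hID
    hcase G hG hG1 hGs
  have hH0 : 0 < H := by linarith
  have hlogH : 1 ≤ Real.log H := by
    rw [Real.le_log_iff_exp_le hH0]
    have := Real.exp_one_lt_d9
    linarith
  have hlogS : 0 ≤ Real.log S := Real.log_nonneg (by linarith)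
  -- Vieta
  have hroots : ∀ i, (a : ℂ) * (σ i α) ^ 3 + b * (σ i α) ^ 2 + c * (σ i α) + e = 0 := by
    intro i
    have := congrArg (σ i) heq
    simpa only [map_add, map_mul, map_pow, map_intCast, map_zero] using this
  obtain ⟨vb, vc, ve⟩ := nt_vieta (fun i => σ i α) a b c e (fun i j hij => hdist i j hij) hroots
  obtain ⟨hsep, hint⟩ := hTHE (fun i => σ i α) a b c e H (by linarith) ha haH hbH hcH heH vb vc ve hdsc
  have hAl : AlH K σ α (a ^ 2 * dsc a b c e).natAbs H := by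
    refine ⟨hsep, ?_, nt_dsc a b c e H hH0.le haH hbH hcH heH, ?_⟩
    · exact Int.natAbs_pos.2 (mul_ne_zero (pow_ne_zero 2 ha) hdsc)
    · intro i j k h1 h2 h3
      have h4 := hint i j k h1 h2 h3
      have h5 : (((a ^ 2 * dsc a b c e).natAbs : ℕ) : ℂ) = ((a ^ 2 * dsc a b c e : ℤ) : ℂ) ∨
          (((a ^ 2 * dsc a b c e).natAbs : ℕ) : ℂ) = -((a ^ 2 * dsc a b c e : ℤ) : ℂ) := by
        rcases Int.natAbs_eq (a ^ 2 * dsc a b c e) with h6 | h6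
        · left
          have := congrArg (fun z : ℤ => (z : ℂ)) h6
          simp only [Int.cast_natCast] at this
          exact this.symm
        · right
          have := congrArg (fun z : ℤ => (z : ℂ)) h6
          simp only [Int.cast_neg, Int.cast_natCast] at this
          rw [this, neg_neg]
      rcases h5 with h6 | h6
      · rw [h6]; exact h4
      · rw [h6, neg_mul]; exact h4.neg
  have hpiN : Real.log |(Algebra.norm ℤ π : ℝ)| ≤ 100 * Real.log H := by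
    have hN : (0 : ℝ) < |(Algebra.norm ℤ π : ℝ)| := by
      rw [abs_pos]
      have : Algebra.norm ℤ π ≠ 0 := Algebra.norm_ne_zero_iff.2 hπ
      exact_mod_cast this
    have := Real.log_le_log hN hnorm
    linarith
  have hdl : Real.log |(NumberField.discr K : ℝ)| ≤ Real.log H := by
    have hN : (0 : ℝ) < |(NumberField.discr K : ℝ)| := by
      rw [abs_pos]
      exact_mod_cast NumberField.discr_ne_zero K
    exact Real.log_le_log hN hdisc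
  have h01 : σ 0 α - σ 1 α ≠ 0 := sub_ne_zero.2 (hdist 0 1 (by decide))
  have h02 : σ 0 α - σ 2 α ≠ 0 := sub_ne_zero.2 (hdist 0 2 (by decide))
  have hθ : (σ 0 α - σ 1 α) / (σ 0 α - σ 2 α) ≠ 0 := div_ne_zero h01 h02
  have hfin : ∀ C : ℝ, C ≤ max C1 C2 → -Real.log ‖G - 1‖ ≤ C * ν * (Real.log H + Real.log S) ^ 11 →
      -Real.log ‖G - 1‖ ≤ max C1 C2 * ν * (Real.log H + Real.log S) ^ 11 := by
    intro C hC h
    refine h.trans ?_
    have hp : 0 ≤ (Real.log H + Real.log S) ^ 11 := by positivity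
    exact mul_le_mul_of_nonneg_right (mul_le_mul_of_nonneg_right hC (by linarith)) hp
  have hG30 : ‖G - 1‖ ≤ 1 / 2 := hGs.trans (by norm_num)
  rcases hcase with hre | ⟨hconj, hre0⟩
  · have hθim : ((σ 0 α - σ 1 α) / (σ 0 α - σ 2 α)).im = 0 := by
      have e1 : (σ 0 α - σ 1 α).im = 0 := by rw [Complex.sub_im, hre, hre, sub_zero]
      have e2 : (σ 0 α - σ 2 α).im = 0 := by rw [Complex.sub_im, hre, hre, sub_zero]
      rw [Complex.div_im, e1, e2]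
      simp
    obtain ⟨ε1, ε2, lam, hl0, hgood⟩ := GR K hK σ hσ hre π hπ ((σ 0 α - σ 1 α) / (σ 0 α - σ 2 α))
      (100 * Real.log H) (Real.log H) S ν hθ hθim
      ((nt_theta hH (hsep 0 1 (by decide)).1 (hsep 0 1 (by decide)).2 (hsep 0 2 (by decide)).1
        (hsep 0 2 (by decide)).2).trans (by linarith)) hlogH hdl (by linarith) hpiN hSπ hID
    refine hfin C1 (le_max_left _ _) (CM1 K hK σ hσ π hπ ε1 ε2 α _ lam H S ν hH hS hν hνH hnorm hAl hgood G hG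
      hG1 hGs ?_)
    rw [← hG] at hl0
    have h1 : |‖G‖ - 1| ≤ ‖G - 1‖ := by
      have := abs_norm_sub_norm_le G 1
      rwa [norm_one] at this
    have h2 := nt_logabs (h1.trans hG30)
    linarith
  · have hθn : ‖(σ 0 α - σ 1 α) / (σ 0 α - σ 2 α)‖ = 1 := by
      have h1 : σ 0 α - σ 2 α = (starRingEnd ℂ) (σ 0 α - σ 1 α) := by
        rw [map_sub, ← hconj, Complex.conj_eq_iff_im.2 (hre0 α)]
      rw [norm_div, h1, Complex.norm_conj, div_self]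
      exact norm_ne_zero_iff.2 h01
    obtain ⟨ε1, ε2, lam, hl0, hgood⟩ := GC K hK σ hσ hconj hre0 π hπ ((σ 0 α - σ 1 α) / (σ 0 α - σ 2 α))
      (100 * Real.log H) (Real.log H) S ν hθn hlogH hdl (by linarith) hpiN hSπ hID
    refine hfin C2 (le_max_right _ _) (CM2 K hK σ hσ π hπ ε1 ε2 α _ lam H S ν hH hS hν hνH hnorm hAl hgood G hG
      hG1 hGs ?_)
    rw [hl0, ← hG, norm_mul]
    have h1 := Complex.norm_log_one_add_half_le_self hG30
    rw [add_sub_cancel] at h1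
    have h2 : ‖(2 : ℂ)‖ = 2 := by simp
    rw [h2]
    have := norm_nonneg (G - 1)
    linarith

end Pool.Helper99.BK
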