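import Pool.Agent.Helper99.BK.Stmts

/-! Module ZE2c: zero estimate, curves and translations. -/

set_option autoImplicit false

namespace Pool.Helper99.BK

open MvPolynomial

theorem ze2c_deg_dvd {P Q : MvPolynomial (Fin 2) ℂ} (hQ : Q ≠ 0) (h : P ∣ Q) :
    P.totalDegree ≤ Q.totalDegree := by
  obtain ⟨R, rfl⟩ := h
  have hP : P ≠ 0 := left_ne_zero_of_mul hQ
  have hR : R ≠ 0 := right_ne_zero_of_mul hQ
  rw [totalDegree_mul_of_isDomain hP hR]
  exact Nat.le_add_right _ _

theorem ze2c_msum (m : Multiset (MvPolynomial (Fin 2) ℂ)) (h : ∀ F ∈ m, F ≠ 0) :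
    (m.map totalDegree).sum = m.prod.totalDegree := by
  induction m using Multiset.induction_on with
  | empty => simp
  | cons F m ih =>
    have h1 : F ≠ 0 := h F (Multiset.mem_cons_self F m)
    have h2 : ∀ G ∈ m, G ≠ 0 := fun G hG => h G (Multiset.mem_cons_of_mem hG)
    have h3 : m.prod ≠ 0 := Multiset.prod_ne_zero (fun h0 => h2 0 h0 rfl)
    rw [Multiset.map_cons, Multiset.sum_cons, Multiset.prod_cons, totalDegree_mul_of_isDomain h1 h3,
      ih h2]

theorem ze2c_cover (δ : ℕ) (B0 : Finset (Fin 2 → ℂ)) (m : Multiset (MvPolynomial (Fin 2) ℂ)) :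
    (∀ F ∈ m, ∀ S : Finset (Fin 2 → ℂ), (∀ s ∈ S, s ∈ B0 ∧ eval s F = 0) → S.card ≤ F.totalDegree * δ) →
    ∀ B : Finset (Fin 2 → ℂ), B ⊆ B0 → (∀ b ∈ B, ∃ F ∈ m, eval b F = 0) →
      B.card ≤ (m.map totalDegree).sum * δ := by
  classical
  induction m using Multiset.induction_on with
  | empty =>
    intro _ B _ hB
    have : B = ∅ := by
      rw [Finset.eq_empty_iff_forall_notMem]
      intro b hb
      obtain ⟨F, hF, _⟩ := hB b hb
      exact absurd hF (Multiset.notMem_zero F)
    rw [this]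
    simp
  | cons F m ih =>
    intro h B hB0 hB
    have h1 := h F (Multiset.mem_cons_self F m) (B.filter (fun b => eval b F = 0)) (by
      intro s hs
      rw [Finset.mem_filter] at hs
      exact ⟨hB0 hs.1, hs.2⟩)
    have h2 := ih (fun G hG => h G (Multiset.mem_cons_of_mem hG)) (B.filter (fun b => ¬ eval b F = 0))
      ((Finset.filter_subset _ _).trans hB0) (by
        intro b hb
        rw [Finset.mem_filter] at hb
        obtain ⟨G, hG, hG0⟩ := hB b hb.1
        rcases Multiset.mem_cons.1 hG with h3 | h3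
        · rw [h3] at hG0; exact absurd hG0 hb.2
        · exact ⟨G, h3, hG0⟩)
    have h3 := Finset.card_filter_add_card_filter_not (s := B) (fun b => eval b F = 0)
    rw [Multiset.map_cons, Multiset.sum_cons, add_mul]
    omega

theorem ze2c_prod_dvd {ι : Type} (D : Finset ι) (f : ι → MvPolynomial (Fin 2) ℂ) (Q : MvPolynomial (Fin 2) ℂ)
    (hirr : ∀ v ∈ D, Irreducible (f v)) (hd : ∀ v ∈ D, f v ∣ Q)
    (hna : ∀ v ∈ D, ∀ w ∈ D, v ≠ w → ¬ Associated (f v) (f w)) : ∏ v ∈ D, f v ∣ Q := by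
  classical
  induction D using Finset.induction_on with
  | empty => simp
  | insert w D hw ih =>
    have h1 := ih (fun v hv => hirr v (Finset.mem_insert_of_mem hv))
      (fun v hv => hd v (Finset.mem_insert_of_mem hv))
      (fun v hv v' hv' => hna v (Finset.mem_insert_of_mem hv) v' (Finset.mem_insert_of_mem hv'))
    obtain ⟨R, hR⟩ := h1
    have hwI := hirr w (Finset.mem_insert_self w D)
    have hwP : Prime (f w) := hwI.prime
    have h2 : f w ∣ (∏ v ∈ D, f v) * R := hR ▸ hd w (Finset.mem_insert_self w D)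
    rcases hwP.dvd_or_dvd h2 with h3 | h3
    · obtain ⟨v, hv, h4⟩ := (Prime.dvd_finsetProd_iff hwP f).1 h3
      exact absurd (hwI.associated_of_dvd (hirr v (Finset.mem_insert_of_mem hv)) h4)
        (hna w (Finset.mem_insert_self w D) v (Finset.mem_insert_of_mem hv) (fun he => hw (he ▸ hv)))
    · obtain ⟨R', hR'⟩ := h3
      rw [Finset.prod_insert hw, hR, hR']
      exact ⟨R', by ring⟩

theorem ze2c_deg_pos {F : MvPolynomial (Fin 2) ℂ} (hF : Irreducible F) : 1 ≤ F.totalDegree := by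
  by_contra hc
  have h0 : F.totalDegree = 0 := by omega
  rw [totalDegree_eq_zero_iff_eq_C] at h0
  apply hF.not_isUnit
  rw [h0]
  apply IsUnit.map
  rw [isUnit_iff_ne_zero]
  intro hc0
  rw [hc0, C_0] at h0
  exact hF.ne_zero h0

theorem st_ZE2c (h1 : ST_BEZ) (h2 : ST_TRB) (h3 : ST_TRL) : ST_ZE2c := by
  classical
  obtain ⟨tev, tadd, t0, tmul, tdeg, tirr, -⟩ := h2
  intro Q hQ δ hδ A B hAB
  rcases A.eq_empty_or_nonempty with hA | ⟨a0, ha0⟩
  · right
    refine ⟨![1, 0], ?_, ?_⟩
    · intro h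
      have := congrFun h 0
      simp at this
    · rw [hA]; simp
  have tinv : ∀ (a : Fin 2 → ℂ) (F : MvPolynomial (Fin 2) ℂ), tr (-a) (tr a F) = F := by
    intro a F
    rw [tadd, neg_add_cancel, t0]
  have tne : ∀ (a : Fin 2 → ℂ) (F : MvPolynomial (Fin 2) ℂ), F ≠ 0 → tr a F ≠ 0 := by
    intro a F hF h
    apply hF
    rw [← tinv a F, h]
    unfold tr
    exact map_zero _
  have hQ0 : tr a0 Q ≠ 0 := tne a0 Q hQ
  have hfac := UniqueFactorizationMonoid.factors_prod hQ0
  have hirr : ∀ F ∈ UniqueFactorizationMonoid.factors (tr a0 Q), Irreducible F := fun F hF =>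
    UniqueFactorizationMonoid.irreducible_of_factor F hF
  by_cases hcase : ∀ F ∈ UniqueFactorizationMonoid.factors (tr a0 Q), ∃ a ∈ A, ¬ F ∣ tr a Q
  · left
    have hcov := ze2c_cover δ B (UniqueFactorizationMonoid.factors (tr a0 Q)) (by
      intro F hF S hS
      obtain ⟨a, ha, hnd⟩ := hcase F hF
      have h4 := h1 F (tr a Q) (hirr F hF) hnd S (by
        intro s hs
        refine ⟨(hS s hs).2, ?_⟩
        rw [tev]
        exact hAB a ha s (hS s hs).1)
      rw [tdeg] at h4
      exact h4.trans (Nat.mul_le_mul_left _ hδ)) B (Finset.Subset.refl B) (by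
      intro b hb
      have h5 : eval b (tr a0 Q) = 0 := by rw [tev]; exact hAB a0 ha0 b hb
      obtain ⟨u, hu⟩ := hfac
      rw [← hu, map_mul] at h5
      have h6 : eval b (UniqueFactorizationMonoid.factors (tr a0 Q)).prod = 0 := by
        rcases mul_eq_zero.1 h5 with h7 | h7
        · exact h7
        · exfalso
          have h8 : IsUnit (eval b (u : MvPolynomial (Fin 2) ℂ)) := (Units.isUnit u).map (eval b)
          rw [h7] at h8
          exact not_isUnit_zero h8
      rw [map_multiset_prod, Multiset.prod_eq_zero_iff, Multiset.mem_map] at h6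
      obtain ⟨F, hF, hF0⟩ := h6
      exact ⟨F, hF, hF0⟩)
    rw [ze2c_msum _ (fun F hF => (hirr F hF).ne_zero)] at hcov
    have h7 : (UniqueFactorizationMonoid.factors (tr a0 Q)).prod.totalDegree ≤ δ := by
      refine (ze2c_deg_dvd hQ0 hfac.dvd).trans ?_
      rw [tdeg]
      exact hδ
    calc B.card ≤ _ := hcov
      _ ≤ δ * δ := Nat.mul_le_mul_right _ h7
      _ = δ ^ 2 := (sq δ).symm
  · right
    push Not at hcase
    obtain ⟨F, hF, hFd⟩ := hcase
    have hFI := hirr F hF
    obtain ⟨μ, hμ, hass⟩ := h3 F hFI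
    refine ⟨μ, hμ, ?_⟩
    obtain ⟨g, hg⟩ : ∃ g : ℂ → (Fin 2 → ℂ), ∀ v ∈ A.image (fun a => μ 0 * a 0 + μ 1 * a 1),
        g v ∈ A ∧ μ 0 * g v 0 + μ 1 * g v 1 = v := by
      have : ∀ v : ℂ, ∃ a : Fin 2 → ℂ, v ∈ A.image (fun a => μ 0 * a 0 + μ 1 * a 1) →
          a ∈ A ∧ μ 0 * a 0 + μ 1 * a 1 = v := by
        intro v
        by_cases hv : v ∈ A.image (fun a => μ 0 * a 0 + μ 1 * a 1)
        · obtain ⟨a, ha, hav⟩ := Finset.mem_image.1 hv
          exact ⟨a, fun _ => ⟨ha, hav⟩⟩
        · exact ⟨0, fun h => absurd h hv⟩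
      choose g hg using this
      exact ⟨g, hg⟩
    have hdvd := ze2c_prod_dvd (A.image (fun a => μ 0 * a 0 + μ 1 * a 1)) (fun v => tr (-(g v)) F) Q
      (fun v _ => tirr _ F hFI) (by
        intro v hv
        obtain ⟨R, hR⟩ := hFd (g v) (hg v hv).1
        refine ⟨tr (-(g v)) R, ?_⟩
        show Q = tr (-(g v)) F * tr (-(g v)) R
        rw [← tmul, ← hR, tinv]) (by
        intro v hv w hw hvw hA
        apply hvw
        have h4 := hass _ _ hA
        have h5 := (hg v hv).2
        have h6 := (hg w hw).2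
        simp only [Pi.neg_apply] at h4
        linear_combination (-1 : ℂ) * h4 - h5 + h6)
    have h5 := (ze2c_deg_dvd hQ hdvd).trans hδ
    have h6 : (∏ v ∈ A.image (fun a => μ 0 * a 0 + μ 1 * a 1), tr (-(g v)) F).totalDegree =
        (A.image (fun a => μ 0 * a 0 + μ 1 * a 1)).card * F.totalDegree := by
      have h7 := ze2c_msum ((A.image (fun a => μ 0 * a 0 + μ 1 * a 1)).val.map (fun v => tr (-(g v)) F)) (by
        intro G hG
        obtain ⟨v, _, rfl⟩ := Multiset.mem_map.1 hG
        exact tne _ F hFI.ne_zero)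
      rw [Multiset.map_map] at h7
      rw [Finset.prod, ← h7]
      have h8 : ∀ v, (totalDegree ∘ fun v => tr (-(g v)) F) v = F.totalDegree := by
        intro v
        exact tdeg _ F
      rw [Multiset.map_congr rfl (fun v _ => h8 v), Multiset.map_const', Multiset.sum_replicate,
        Finset.card_val, smul_eq_mul]
    rw [h6] at h5
    have h9 := ze2c_deg_pos hFI
    calc (A.image (fun a => μ 0 * a 0 + μ 1 * a 1)).card
        = (A.image (fun a => μ 0 * a 0 + μ 1 * a 1)).card * 1 := (mul_one _).symm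
      _ ≤ (A.image (fun a => μ 0 * a 0 + μ 1 * a 1)).card * F.totalDegree := Nat.mul_le_mul_left _ h9
      _ ≤ δ := h5

end Pool.Helper99.BK
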